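import Pool.Agent.KS6_62.Ew.Main

/-!
# The numerical semigroups of maximal effective weight

The effective weight of a numerical semigroup of genus `g` is at most `⌊(g+1)²/8⌋`, and for every
`g ≥ 10` the semigroups which attain this bound are exactly the known ones: there are two of them
if `g ≡ 1 (mod 4)` and one otherwise.
-/

set_option autoImplicit false

namespace Pool.Agent.Results.MP_7689c7_co.ExtremalSemigroups

/-- `S` is a numerical semigroup: a submonoid of `ℕ` (it contains `0` and is closed under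
addition) with finitely many gaps. -/
def IsNumerical (S : AddSubmonoid ℕ) : Prop := {b : ℕ | b ∉ S}.Finite

/-- The genus: the number of gaps. -/
noncomputable def genus (S : AddSubmonoid ℕ) : ℕ := Set.ncard {b : ℕ | b ∉ S}

/-- `a` is a minimal generator of `S`: a nonzero element of `S` which is not a sum of two nonzero
elements of `S`. -/
def IsMinGen (S : AddSubmonoid ℕ) (a : ℕ) : Prop :=
  a ∈ S ∧ a ≠ 0 ∧ ¬ ∃ x ∈ S, ∃ y ∈ S, x ≠ 0 ∧ y ≠ 0 ∧ x + y = a

/-- The effective weight: the number of pairs `(a, b)`, `a` a minimal generator, `b` a gap,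
`a < b`. -/
noncomputable def ew (S : AddSubmonoid ℕ) : ℕ :=
  Set.ncard {p : ℕ × ℕ | IsMinGen S p.1 ∧ p.2 ∉ S ∧ p.1 < p.2}

/-- **The semigroups of maximal effective weight.**
1. Every numerical semigroup `S` has `ew S ≤ ⌊(g+1)²/8⌋`, with `g` the genus of `S`.
2. For `g ≥ 10`, a submonoid `S` of `ℕ` is a numerical semigroup of genus `g` with
   `ew S = ⌊(g+1)²/8⌋` if and only if there is `η ∈ {-2, …, 2}` such that `c = (3g+3+η)/4` and
   `d = (5g+1+3η)/4` are integers and `S = {0} ∪ [c, d] ∪ [2c, ∞)`.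
3. For `g ≥ 10` the number of these semigroups is `2` if `g ≡ 1 (mod 4)` and `1` otherwise. -/
theorem result :
    (∀ S : AddSubmonoid ℕ, IsNumerical S → ew S ≤ (genus S + 1) ^ 2 / 8) ∧
    (∀ g : ℕ, 10 ≤ g → ∀ S : AddSubmonoid ℕ,
      (IsNumerical S ∧ genus S = g ∧ ew S = (g + 1) ^ 2 / 8) ↔
        ∃ (η : ℤ) (c d : ℕ), |η| ≤ 2 ∧ 4 * (c : ℤ) = 3 * g + 3 + η ∧
          4 * (d : ℤ) = 5 * g + 1 + 3 * η ∧
          (S : Set ℕ) = {0} ∪ Set.Icc c d ∪ Set.Ici (2 * c)) ∧
    (∀ g : ℕ, 10 ≤ g →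
      {S : AddSubmonoid ℕ | IsNumerical S ∧ genus S = g ∧ ew S = (g + 1) ^ 2 / 8}.ncard =
        if g % 4 = 1 then 2 else 1) := by
  refine ⟨fun S hS => Pool.Agent.Results.MP_7689c7_co.EffectiveWeightBound.result S hS,
    fun g hg S => ?_, fun g hg => Pool.Agent.KS6_62.Ew.extremal_count g hg⟩
  have hiff := Pool.Agent.KS6_62.Ew.extremal_iff g hg S
  have hset : ∀ c d : ℕ, S = Pool.Agent.KS6_62.Ew.semi c d ↔
      (S : Set ℕ) = {0} ∪ Set.Icc c d ∪ Set.Ici (2 * c) := by
    intro c d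
    constructor
    · rintro rfl
      ext x
      rw [SetLike.mem_coe, Pool.Agent.KS6_62.Ew.mem_semi]
      simp only [Set.mem_union, Set.mem_singleton_iff, Set.mem_Icc, Set.mem_Ici]
      tauto
    · intro h
      apply SetLike.coe_injective
      rw [h]
      ext x
      rw [SetLike.mem_coe, Pool.Agent.KS6_62.Ew.mem_semi]
      simp only [Set.mem_union, Set.mem_singleton_iff, Set.mem_Icc, Set.mem_Ici]
      tauto
  refine hiff.trans ⟨?_, ?_⟩
  · rintro ⟨η, c, d, ⟨h1, h2, h3⟩, h4⟩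
    exact ⟨η, c, d, h1, h2, h3, (hset c d).1 h4⟩
  · rintro ⟨η, c, d, h1, h2, h3, h4⟩
    exact ⟨η, c, d, ⟨h1, h2, h3⟩, (hset c d).2 h4⟩

end Pool.Agent.Results.MP_7689c7_co.ExtremalSemigroups
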